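import Pool.Agent.H37.Chrom.Defs
import Pool.Agent.H37.Chrom.Final

/-!
# Limits of chromatic roots of 3-connected planar graphs

The closure of the set of chromatic roots of 3-connected planar graphs contains every complex
number `q` with `|q - 1| ≥ 1` and `|q - 2| ≥ 1`, and moreover every `q` with `|q - 1| ≥ 1` for
which `w + 1/w = q - 2 + 3/(q - 1)` has a solution with `|w| > 1` and `|w - 1| < |q - 2| |w|`.

The graphs: take a generalized theta graph and put in each of its bounded faces a collar, that is
a closed ladder-like strip whose vertices on the near side are joined to the boundary of the face.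
For a long strip the transfer matrix of the strip is dominated by an eigenvector in the trivial
sector, the partition function becomes that of the theta graph times a nonvanishing factor, and
the roots of the theta graphs (Sokal) survive by the theorem of Hurwitz.
-/

namespace Pool.Agent.Results.MP_5e2eaf_co.OutsideDiscs

open H37.Chrom

theorem result : {q : ℂ | 1 ≤ ‖q - 1‖ ∧ (1 ≤ ‖q - 2‖ ∨ ∃ w : ℂ, 1 < ‖w‖ ∧
    w + w⁻¹ = q - 2 + 3 / (q - 1) ∧ ‖w - 1‖ < ‖q - 2‖ * ‖w‖)} ⊆ closure rootSet := by
  rintro q ⟨h1, h2 | ⟨w, hw, he, h3⟩⟩
  · exact outside_subset h1 h2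
  · exact region_subset h1 hw he h3

end Pool.Agent.Results.MP_5e2eaf_co.OutsideDiscs
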